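import Pool.Agent.Helper30.ML.Goals

/-!
# ML-LB: adding a face to a MacLane family
-/

set_option autoImplicit false

namespace Pool.Agent.Helper49.ML

open scoped Classical
open Finset
open Pool.Agent.Helper94.KC (Proper InChain KStep KEq AllEq dR QG Even2)
open Pool.Agent.Helper30.ML

theorem pair_eq {V : Type} {a b c d : V} (h : ({a, b} : Finset V) = {c, d}) :
    (a = c ∧ b = d) ∨ (a = d ∧ b = c) := by
  have h' : ({a, b} : Set V) = {c, d} := by
    have := congrArg (fun s : Finset V => (s : Set V)) h
    simpa using this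
  exact Set.pair_eq_pair_iff.1 h'

theorem mem_eG {V : Type} [Fintype V] {G : SimpleGraph V} {a b : V} :
    ({a, b} : Finset V) ∈ eG G ↔ G.Adj a b := by
  unfold eG
  rw [Finset.mem_filter]
  constructor
  · rintro ⟨_, u, w, h, he⟩
    rcases pair_eq he with ⟨rfl, rfl⟩ | ⟨rfl, rfl⟩
    · exact h
    · exact h.symm
  · intro h
    exact ⟨Finset.mem_univ _, a, b, h, rfl⟩

theorem eG_mono {V : Type} [Fintype V] (G : SimpleGraph V) (x y : V) : eG G ⊆ eG (adE G x y) := by
  intro e he
  unfold eG at he ⊢
  rw [Finset.mem_filter] at he ⊢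
  obtain ⟨_, u, w, h, he⟩ := he
  exact ⟨Finset.mem_univ _, u, w, Or.inl h, he⟩

theorem eG_adE {V : Type} [Fintype V] {G : SimpleGraph V} {x y : V} {e : Finset V}
    (he : e ∈ eG (adE G x y)) (hne : e ≠ {x, y}) : e ∈ eG G := by
  unfold eG at he ⊢
  rw [Finset.mem_filter] at he ⊢
  obtain ⟨_, u, w, h, he⟩ := he
  refine ⟨Finset.mem_univ _, u, w, ?_, he⟩
  rcases h with h | ⟨_, h | h⟩
  · exact h
  · exact absurd (by rw [he, h.1, h.2]) hne
  · exact absurd (by rw [he, h.1, h.2, Finset.pair_comm]) hne

theorem card_symmDiff' {α : Type} [DecidableEq α] (A B : Finset α) :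
    (symmDiff A B).card + 2 * (A ∩ B).card = A.card + B.card := by
  have h1 : symmDiff A B = (A \ B) ∪ (B \ A) := rfl
  have h2 : Disjoint (A \ B) (B \ A) := disjoint_sdiff_sdiff
  rw [h1, Finset.card_union_of_disjoint h2]
  have h3 := Finset.card_sdiff_add_card_inter A B
  have h4 := Finset.card_sdiff_add_card_inter B A
  rw [Finset.inter_comm B A] at h4
  omega

theorem even2_symmDiff {V : Type} {z t : Finset (Finset V)} (hz : Even2 z) (ht : Even2 t) :
    Even2 (symmDiff z t) := by
  intro w
  have h1 : (symmDiff z t).filter (fun e => w ∈ e) =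
      symmDiff (z.filter (fun e => w ∈ e)) (t.filter (fun e => w ∈ e)) := by
    ext e
    simp only [Finset.mem_filter, Finset.mem_symmDiff]
    tauto
  rw [h1]
  have h2 := card_symmDiff' (z.filter (fun e => w ∈ e)) (t.filter (fun e => w ∈ e))
  obtain ⟨a, ha⟩ := hz w
  obtain ⟨b, hb⟩ := ht w
  have ha' : (z.filter (fun e => w ∈ e)).card = a + a := by convert ha
  have hb' : (t.filter (fun e => w ∈ e)).card = b + b := by convert hb
  rw [Nat.even_iff]
  omega

/-- the new triangle -/
noncomputable def tri {V : Type} (v x y : V) : Finset (Finset V) := {{v, x}, {v, y}, {x, y}}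

theorem mem_tri {V : Type} {v x y : V} {e : Finset V} :
    e ∈ tri v x y ↔ e = {v, x} ∨ e = {v, y} ∨ e = {x, y} := by
  unfold tri
  simp

theorem even2_tri {V : Type} {v x y : V} (hx : v ≠ x) (hy : v ≠ y) (hxy : x ≠ y) :
    Even2 (tri v x y) := by
  have d1 : ({v, x} : Finset V) ≠ {v, y} := by
    intro h
    rcases pair_eq h with h | h
    · exact hxy h.2
    · exact hy h.1
  have d2 : ({v, x} : Finset V) ≠ {x, y} := by
    intro h
    rcases pair_eq h with h | h
    · exact hx h.1
    · exact hy h.1
  have d3 : ({v, y} : Finset V) ≠ {x, y} := by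
    intro h
    rcases pair_eq h with h | h
    · exact hx h.1
    · exact hy h.1
  intro w
  by_cases hwv : w = v
  · have : (tri v x y).filter (fun e => w ∈ e) = {{v, x}, {v, y}} := by
      ext e
      rw [Finset.mem_filter, mem_tri, hwv]
      constructor
      · rintro ⟨rfl | rfl | rfl, h⟩
        · simp
        · simp
        · simp [hx, hy] at h
      · intro h
        rw [Finset.mem_insert, Finset.mem_singleton] at h
        rcases h with rfl | rfl <;> simp
    rw [this, Finset.card_pair d1]
    exact even_two
  by_cases hwx : w = x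
  · have : (tri v x y).filter (fun e => w ∈ e) = {{v, x}, {x, y}} := by
      ext e
      rw [Finset.mem_filter, mem_tri, hwx]
      constructor
      · rintro ⟨rfl | rfl | rfl, h⟩
        · simp
        · simp [hx.symm, hxy] at h
        · simp
      · intro h
        rw [Finset.mem_insert, Finset.mem_singleton] at h
        rcases h with rfl | rfl <;> simp
    rw [this, Finset.card_pair d2]
    exact even_two
  by_cases hwy : w = y
  · have : (tri v x y).filter (fun e => w ∈ e) = {{v, y}, {x, y}} := by
      ext e
      rw [Finset.mem_filter, mem_tri, hwy]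
      constructor
      · rintro ⟨rfl | rfl | rfl, h⟩
        · simp [hy.symm, hxy.symm] at h
        · simp
        · simp
      · intro h
        rw [Finset.mem_insert, Finset.mem_singleton] at h
        rcases h with rfl | rfl <;> simp
    rw [this, Finset.card_pair d3]
    exact even_two
  have : (tri v x y).filter (fun e => w ∈ e) = ∅ := by
    rw [Finset.filter_eq_empty_iff]
    intro e he h
    rw [mem_tri] at he
    rcases he with rfl | rfl | rfl <;> simp_all
  rw [this]
  simp

theorem filter_map_card {m : ℕ} (J : Finset (Fin m)) (p : Fin (m + 1) → Prop) [DecidablePred p] :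
    ((J.map (Fin.succEmb m)).filter p).card = (J.filter (fun i => p i.succ)).card := by
  rw [Finset.filter_map, Finset.card_map]
  rfl

/-- **LB** -/
theorem pLB : Pool.Agent.Helper30.ML.StmtLB := by
  intro V _ G m f v x y hf hxy hvx hvy hG h1 h2
  have e3 : ({x, y} : Finset V) ∉ eG G := fun h => hG (mem_eG.1 h)
  have htE : tri v x y ⊆ eG (adE G x y) := by
    intro e he
    rcases mem_tri.1 he with rfl | rfl | rfl
    · exact mem_eG.2 (Or.inl hvx)
    · exact mem_eG.2 (Or.inl hvy)
    · exact mem_eG.2 (Or.inr ⟨hxy, Or.inl ⟨rfl, rfl⟩⟩)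
  have hte : Even2 (tri v x y) := even2_tri hvx.ne hvy.ne hxy
  refine ⟨m + 1, Fin.cons (tri v x y) f, ?_⟩
  refine { sub := ?_, even := ?_, two := ?_, span := ?_ }
  · intro i
    refine Fin.cases ?_ (fun j => ?_) i
    · rw [Fin.cons_zero]
      exact htE
    · rw [Fin.cons_succ]
      exact (hf.sub j).trans (eG_mono G x y)
  · intro i
    refine Fin.cases ?_ (fun j => ?_) i
    · rw [Fin.cons_zero]
      exact hte
    · rw [Fin.cons_succ]
      exact hf.even j
  · intro e
    rw [Fin.card_filter_univ_succ]
    simp only [Fin.cons_zero, Fin.cons_succ]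
    split_ifs with h
    · rcases mem_tri.1 h with rfl | rfl | rfl
      · exact Nat.succ_le_succ h1
      · exact Nat.succ_le_succ h2
      · have : (univ.filter (fun i => ({x, y} : Finset V) ∈ f i)) = ∅ := by
          rw [Finset.filter_eq_empty_iff]
          intro i _ hi
          exact e3 (hf.sub i hi)
        rw [this]
        simp
    · exact hf.two e
  · intro z hz hz2
    by_cases hmem : ({x, y} : Finset V) ∈ z
    · have hz' : symmDiff z (tri v x y) ⊆ eG G := by
        intro e he
        rcases Finset.mem_symmDiff.1 he with ⟨ha, hb⟩ | ⟨ha, hb⟩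
        · refine eG_adE (hz ha) ?_
          rintro rfl
          exact hb (mem_tri.2 (Or.inr (Or.inr rfl)))
        · refine eG_adE (htE ha) ?_
          rintro rfl
          exact hb hmem
      obtain ⟨J, hJ⟩ := hf.span _ hz' (even2_symmDiff hz2 hte)
      refine ⟨insert 0 (J.map (Fin.succEmb m)), fun e => ?_⟩
      have h0 : (0 : Fin (m + 1)) ∉ (J.map (Fin.succEmb m)).filter
          (fun i => e ∈ (Fin.cons (tri v x y) f : Fin (m + 1) → Finset (Finset V)) i) := by
        intro h
        obtain ⟨j, _, hj⟩ := Finset.mem_map.1 (Finset.mem_filter.1 h).1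
        exact Fin.succ_ne_zero j hj
      have h3 := hJ e
      rw [Finset.mem_symmDiff] at h3
      rw [Finset.filter_insert, Fin.cons_zero]
      split_ifs with he
      · rw [Finset.card_insert_of_notMem h0, filter_map_card, Nat.odd_add_one]
        simp only [Fin.cons_succ]
        rw [← h3]
        tauto
      · rw [filter_map_card]
        simp only [Fin.cons_succ]
        rw [← h3]
        tauto
    · have hz' : z ⊆ eG G := by
        intro e he
        refine eG_adE (hz he) ?_
        rintro rfl
        exact hmem he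
      obtain ⟨J, hJ⟩ := hf.span z hz' hz2
      refine ⟨J.map (Fin.succEmb m), fun e => ?_⟩
      rw [filter_map_card]
      simp only [Fin.cons_succ]
      exact hJ e

end Pool.Agent.Helper49.ML
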