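import Pool.Agent.Helper30.ML.Goals

/-!
# ML-FC: MacLane graphs are 5-colourable
-/

set_option autoImplicit false

namespace Pool.Agent.Helper49.ML

open scoped Classical
open Finset
open Pool.Agent.Helper94.KC (Proper InChain KStep KEq AllEq dR QG Even2)
open Pool.Agent.Helper30.ML

/-- a proper colouring of `G - x` extends to `G` if at most four colours occur at the neighbours of `x` -/
theorem extend_col {V : Type} [Fintype V] {G : SimpleGraph V} {x : V} {f : V → Fin 5}
    (hf : Proper (del G x) f) (hc : ((univ.filter (fun y => G.Adj x y)).image f).card ≤ 4) :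
    ∃ g, Proper G g ∧ ∀ y, y ≠ x → g y = f y := by
  have h1 : ∃ c, c ∉ (univ.filter (fun y => G.Adj x y)).image f := by
    by_contra h
    push Not at h
    have h2 : (univ : Finset (Fin 5)) ⊆ (univ.filter (fun y => G.Adj x y)).image f := fun c _ => h c
    have h3 := Finset.card_le_card h2
    rw [Finset.card_univ, Fintype.card_fin] at h3
    omega
  obtain ⟨c, hcn⟩ := h1
  have hn : ∀ y, G.Adj x y → f y ≠ c := by
    intro y hy he
    exact hcn (Finset.mem_image.2 ⟨y, Finset.mem_filter.2 ⟨Finset.mem_univ _, hy⟩, he⟩)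
  refine ⟨Function.update f x c, ?_, fun y hy => Function.update_of_ne hy _ _⟩
  intro u v huv
  by_cases hu : u = x
  · subst hu
    rw [Function.update_self, Function.update_of_ne huv.ne.symm]
    exact (hn v huv).symm
  · by_cases hv : v = x
    · subst hv
      rw [Function.update_self, Function.update_of_ne hu]
      exact hn u huv.symm
    · rw [Function.update_of_ne hu, Function.update_of_ne hv]
      exact hf u v ⟨huv, hu, hv⟩

/-- colourings of `G` with `f x = f y` from colourings of the quotient -/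
theorem quot_col {V : Type} [Fintype V] {G : SimpleGraph V} {v x y : V} (hd : dR G univ v ≤ 5)
    (hxy : x ≠ y) (hx : G.Adj v x) (hy : G.Adj v y) (hn : ¬ G.Adj x y) {h : V → Fin 5}
    (hh : Proper (del (QG G (cr x y)) v) h) : ∃ f, Proper G f ∧ f x = f y := by
  have r1 : cr x y y = x := by simp [cr]
  have r2 : ∀ a, a ≠ y → cr x y a = a := fun a ha => by simp [cr, ha]
  have r3 : ∀ a, a ≠ v → cr x y a ≠ v := by
    intro a ha
    by_cases h1 : a = y
    · rw [h1, r1]
      exact hx.ne.symm
    · rw [r2 a h1]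
      exact ha
  have p1 : Proper (del G v) (fun a => h (cr x y a)) := by
    intro a b hab
    obtain ⟨hab, ha, hb⟩ := hab
    refine hh _ _ ⟨⟨?_, a, b, rfl, rfl, hab⟩, r3 a ha, r3 b hb⟩
    by_cases h1 : a = y
    · have h2 : b ≠ y := fun h2 => hab.ne (h1.trans h2.symm)
      rw [h1, r1, r2 b h2]
      intro h3
      rw [h1, ← h3] at hab
      exact hn hab.symm
    · rw [r2 a h1]
      by_cases h2 : b = y
      · rw [h2, r1]
        intro h3
        rw [h2, h3] at hab
        exact hn hab
      · rw [r2 b h2]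
        exact hab.ne
  have p2 : ((univ.filter (fun a => G.Adj v a)).image (fun a => h (cr x y a))).card ≤ 4 := by
    have hsub : (univ.filter (fun a => G.Adj v a)).image (fun a => h (cr x y a)) ⊆
        ((univ.filter (fun a => G.Adj v a)).erase y).image (fun a => h (cr x y a)) := by
      intro c hc
      obtain ⟨a, ha, hac⟩ := Finset.mem_image.1 hc
      by_cases h1 : a = y
      · refine Finset.mem_image.2 ⟨x, Finset.mem_erase.2 ⟨hxy, Finset.mem_filter.2 ⟨Finset.mem_univ _, hx⟩⟩, ?_⟩
        rw [← hac, h1, r1, r2 x hxy]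
      · exact Finset.mem_image.2 ⟨a, Finset.mem_erase.2 ⟨h1, ha⟩, hac⟩
    refine (Finset.card_le_card hsub).trans (Finset.card_image_le.trans ?_)
    have hym : y ∈ univ.filter (fun a => G.Adj v a) := Finset.mem_filter.2 ⟨Finset.mem_univ _, hy⟩
    have hd' : (univ.filter (fun a => G.Adj v a)).card ≤ 5 := hd
    rw [Finset.card_erase_of_mem hym]
    omega
  obtain ⟨g, hg, hgf⟩ := extend_col p1 p2
  refine ⟨g, hg, ?_⟩
  rw [hgf x hx.ne.symm, hgf y hy.ne.symm, r1, r2 x hxy]

/-- a vertex of degree 5 has two neighbours which are not adjacent, if there is no `K₅` -/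
theorem exists_nonadj {V : Type} [Fintype V] {G : SimpleGraph V} {x : V} (hd : dR G univ x = 5)
    (hK : ∀ w : Fin 5 → V, ¬ ∀ i j, i ≠ j → G.Adj (w i) (w j)) :
    ∃ y z, G.Adj x y ∧ G.Adj x z ∧ y ≠ z ∧ ¬ G.Adj y z := by
  by_contra hcon
  push Not at hcon
  unfold dR at hd
  have e := Finset.equivFinOfCardEq hd
  have hm : ∀ i, G.Adj x ((e.symm i : _) : V) := fun i => (Finset.mem_filter.1 (e.symm i).2).2
  refine hK (Fin.cons x (fun i : Fin 4 => ((e.symm i.castSucc : _) : V))) ?_
  intro i j
  refine Fin.cases ?_ (fun i' => ?_) i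
  · refine Fin.cases ?_ (fun j' => ?_) j
    · intro h
      exact absurd rfl h
    · intro _
      rw [Fin.cons_zero, Fin.cons_succ]
      exact hm _
  · refine Fin.cases ?_ (fun j' => ?_) j
    · intro _
      rw [Fin.cons_zero, Fin.cons_succ]
      exact (hm _).symm
    · intro h
      rw [Fin.cons_succ, Fin.cons_succ]
      refine hcon _ _ (hm _) (hm _) ?_
      intro he
      apply h
      have h1 := e.symm.injective (Subtype.ext he)
      rw [Fin.castSucc_injective _ h1]

/-- **FC** -/
theorem pFC : StmtSU → StmtSD → StmtQY → StmtFC := by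
  intro hSU hSD hQY V _ G
  obtain ⟨_, hSD2, hSD3⟩ := hSD
  obtain ⟨hQ1, _, _, hQ4⟩ := hQY
  suffices H : ∀ (n : ℕ) (G : SimpleGraph V), ni G < n → Mac G → ∃ f, Proper G f from
    H (ni G + 1) G (Nat.lt_succ_self _)
  intro n
  induction n with
  | zero => intro G h; exact absurd h (Nat.not_lt_zero _)
  | succ n ih =>
    intro G hn hM
    by_cases hE : ∃ a b, G.Adj a b
    · obtain ⟨x, hx1, hx5⟩ := hSD2 V G hM hE
      have hxa : ∃ a, G.Adj x a := by
        unfold dR at hx1
        obtain ⟨a, ha⟩ := Finset.card_pos.1 hx1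
        exact ⟨a, (Finset.mem_filter.1 ha).2⟩
      by_cases hx4 : dR G univ x ≤ 4
      · have hlt := hQ4 V G x hxa
        have hle : del G x ≤ G := fun a b h => h.1
        obtain ⟨f, hf⟩ := ih (del G x) (by omega) (hSU V G (del G x) hle hM)
        obtain ⟨g, hg, _⟩ := extend_col hf (Finset.card_image_le.trans hx4)
        exact ⟨g, hg⟩
      · have hx : dR G univ x = 5 := by omega
        obtain ⟨y, z, hy, hz, hyz, hnon⟩ := exists_nonadj hx (fun w => hSD3 V G w hM)
        obtain ⟨hM2, hlt⟩ := hQ1 V G x y z hM hyz hy hz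
        obtain ⟨h, hh⟩ := ih _ (by omega) hM2
        obtain ⟨f, hf, _⟩ := quot_col hx5 hyz hy hz hnon hh
        exact ⟨f, hf⟩
    · refine ⟨fun _ => 0, fun u v huv => ?_⟩
      exact absurd ⟨u, v, huv⟩ hE

/-- **XT** -/
theorem pXT : StmtFC → StmtQY → StmtXT := by
  intro hFC hQY V _ G v x y hM hd hxy hx hy hn
  obtain ⟨h, hh⟩ := hFC V _ (hQY.1 V G v x y hM hxy hx hy).1
  exact quot_col hd hxy hx hy hn hh

end Pool.Agent.Helper49.ML
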